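import Pool.Agent.MP_670f9a_nt.H13.Spec2

/-!
The lower bound for the two variable Mahler measure in terms of the top coefficient.
-/

namespace Pool.Agent.MP_670f9a_nt.H15

open Polynomial Real Finset MeasureTheory
open Pool.Agent.MP_670f9a_nt.NP

/-- Monotonicity of circle means off the roots of a nonzero polynomial. -/
theorem avg_mono_off {f : ℂ[X]} (hf : f ≠ 0) {g₁ g₂ : ℂ → ℝ} (h₁ : CircleIntegrable g₁ 0 1)
    (h₂ : CircleIntegrable g₂ 0 1) (h : ∀ u : ℂ, ‖u‖ = 1 → f.eval u ≠ 0 → g₁ u ≤ g₂ u) :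
    circleAverage g₁ 0 1 ≤ circleAverage g₂ 0 1 := by
  rw [circleAverage, circleAverage, smul_eq_mul, smul_eq_mul]
  refine mul_le_mul_of_nonneg_left ?_ (inv_pos.2 two_pi_pos).le
  refine intervalIntegral.integral_mono_ae two_pi_pos.le h₁ h₂ ?_
  have hc : (circleMap 0 1 ⁻¹' {z : ℂ | f.IsRoot z}).Countable :=
    (f.finite_setOfPred_isRoot hf).countable.preimage_circleMap 0 one_ne_zero
  have hn : ∀ᵐ θ : ℝ, θ ∉ circleMap 0 1 ⁻¹' {z : ℂ | f.IsRoot z} :=
    hc.ae_notMem _
  filter_upwards [hn] with θ hθ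
  exact h _ (by simp) hθ

theorem ci_ofReal {g : ℂ → ℝ} (hg : CircleIntegrable g 0 1) :
    CircleIntegrable (fun u => (g u : ℂ)) 0 1 :=
  ⟨hg.1.ofReal, hg.2.ofReal⟩

theorem ci_mul {g : ℂ → ℝ} (hg : CircleIntegrable g 0 1) {k : ℂ → ℂ} (hk : Continuous k) :
    CircleIntegrable (fun u => (g u : ℂ) * k u) 0 1 :=
  (ci_ofReal hg).mul_continuousOn hk.continuousOn

theorem fc_sub {g₁ g₂ : ℂ → ℝ} (h₁ : CircleIntegrable g₁ 0 1) (h₂ : CircleIntegrable g₂ 0 1)
    (r : ℕ) : fc (fun u => g₁ u - g₂ u) r = fc g₁ r - fc g₂ r := by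
  unfold fc
  rw [← circleAverage_fun_sub (ci_mul h₁ (continuous_pow r)) (ci_mul h₂ (continuous_pow r))]
  congr 1
  funext u
  push_cast
  ring

/-- The real part of a combination of Fourier coefficients as a mean. -/
theorem re_sum_fc {g : ℂ → ℝ} (hg : CircleIntegrable g 0 1) (s : Finset ℕ) (a : ℕ → ℂ) :
    (∑ r ∈ s, a r * fc g r).re =
      circleAverage (fun u => g u * (∑ r ∈ s, a r * u ^ r).re) 0 1 := by
  have hk : Continuous fun u : ℂ => ∑ r ∈ s, a r * u ^ r := by fun_prop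
  have e1 : ∑ r ∈ s, a r * fc g r =
      circleAverage (fun u => (g u : ℂ) * ∑ r ∈ s, a r * u ^ r) 0 1 := by
    have e2 : ∀ r ∈ s, a r * fc g r =
        circleAverage (fun u => (g u : ℂ) * (a r * u ^ r)) 0 1 := by
      intro r _
      unfold fc
      rw [← smul_eq_mul, ← circleAverage_fun_smul]
      congr 1
      funext u
      rw [smul_eq_mul]
      ring
    rw [Finset.sum_congr rfl e2, ← circleAverage_fun_sum
      (f := fun r u => (g u : ℂ) * (a r * u ^ r)) (fun r _ => ci_mul hg (by fun_prop))]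
    congr 1
    funext u
    rw [Finset.mul_sum]
  have e3 := Complex.reCLM.circleAverage_comp_comm (ci_mul hg hk)
  rw [e1]
  refine Eq.trans (Eq.symm e3) ?_
  congr 1
  funext u
  simp only [Function.comp_apply, Complex.reCLM_apply, Complex.re_ofReal_mul]

theorem sGeo (h1 : SFC) (h2 : SFub) (h3 : SAdd) (h4 : SEnergy) (h5 : SSeq) (h6 : SRoots) :
    SGeo := by
  intro F L a b hL hne ha hb
  have hf0 : F.leadingCoeff ≠ 0 := fun h => ha (by rw [h, coeff_zero])
  have hF : F ≠ 0 := leadingCoeff_ne_zero.1 hf0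
  obtain ⟨-, hA2, hA3, -, hA5⟩ := h3
  obtain ⟨hH, hε⟩ := hA5 F hF
  have hinj : Function.Injective (Int.castRingHom ℂ) := Int.cast_injective
  have hlead : (toC F).leadingCoeff = F.leadingCoeff.map (Int.castRingHom ℂ) := by
    unfold toC
    rw [leadingCoeff_map_of_injective (Polynomial.map_injective _ hinj)]
    rfl
  obtain ⟨hm0, w, hw1, hw2, hw3, hw4, hw5⟩ := h6 F.leadingCoeff a b ha hb
  rw [← hlead] at hm0 hw4 hw5
  have hf : (toC F).leadingCoeff ≠ 0 := leadingCoeff_ne_zero.2 hH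
  have hm1 := hA3 (toC F) hH
  have hPhi : CircleIntegrable (Phi (toC F)) 0 1 := (h2 _ hH).1
  have hlog : CircleIntegrable (fun u => log ‖(toC F).leadingCoeff.eval u‖) 0 1 :=
    (toC F).leadingCoeff.intervalIntegrable_mahlerMeasure
  have hψ : CircleIntegrable (fun u => Phi (toC F) u - log ‖(toC F).leadingCoeff.eval u‖) 0 1 :=
    hPhi.sub hlog
  have hcard : w.card ≤ L := hw2.trans (hL F.natDegree)
  have key := h5 L w (fun r => -(2 * r) * fc (Phi (toC F)) r)
    (fun r => fc (fun u => Phi (toC F) u - log ‖(toC F).leadingCoeff.eval u‖) r) (m2 (toC F))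
    hε hcard hw3 (by linarith) ?_ ?_ ?_
  · have hb' : (b : ℝ) ≤ a + w.card := by exact_mod_cast hw1
    linarith
  · intro r hr
    have hr0 : (r : ℂ) ≠ 0 := by exact_mod_cast (by omega : r ≠ 0)
    rw [hw5 r hr, fc_sub hPhi hlog, h1 _ r hf hr]
    field_simp
    ring
  · intro N
    have e : ∑ r ∈ Icc 1 N, ‖-(2 * (r : ℂ)) * fc (Phi (toC F)) r‖ ^ 2 / r =
        4 * ∑ r ∈ Icc 1 N, r * ‖fc (Phi (toC F)) r‖ ^ 2 := by
      rw [Finset.mul_sum]
      refine Finset.sum_congr rfl fun r hr => ?_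
      have hr0 : (r : ℝ) ≠ 0 := by
        have := (Finset.mem_Icc.1 hr).1
        exact_mod_cast (by omega : r ≠ 0)
      rw [norm_mul, norm_neg, norm_mul, Complex.norm_natCast, Complex.norm_two]
      field_simp
      ring
    have := h4 F L N hL hne
    rw [e]
    linarith
  · intro N c B hB hc
    rw [re_sum_fc hψ]
    have hk : Continuous fun u : ℂ => (∑ r ∈ Icc 1 N, c r * u ^ r).re := by fun_prop
    have i1 : CircleIntegrable (fun u => (Phi (toC F) u - log ‖(toC F).leadingCoeff.eval u‖) *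
        (∑ r ∈ Icc 1 N, c r * u ^ r).re) 0 1 := hψ.mul_continuousOn hk.continuousOn
    have i2 : CircleIntegrable
        (fun u => B • (Phi (toC F) u - log ‖(toC F).leadingCoeff.eval u‖)) 0 1 :=
      hψ.const_smul
    refine (avg_mono_off hf i1 i2 fun u hu hfu => ?_).trans ?_
    · have := hA2 (toC F) u hfu
      rw [smul_eq_mul, mul_comm B]
      exact mul_le_mul_of_nonneg_left (hc u hu) (by linarith)
    · rw [circleAverage_fun_smul, circleAverage_fun_sub hPhi hlog, smul_eq_mul]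
      refine mul_le_mul_of_nonneg_left ?_ hB
      have e1 : circleAverage (Phi (toC F)) 0 1 = m2 (toC F) := rfl
      have e2 : circleAverage (fun u => log ‖(toC F).leadingCoeff.eval u‖) 0 1 =
        (toC F).leadingCoeff.logMahlerMeasure := rfl
      rw [e1, e2]
      linarith

end Pool.Agent.MP_670f9a_nt.H15
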